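import Mathlib

set_option autoImplicit false
open Finset MvPolynomial Finsupp

namespace Pool.Agent.H.MP_ae75a9_co

/-- Lattice points of `S_n`. -/
def Pt (n : ℕ) := {M : Matrix (Fin n) (Fin n) ℕ // M.IsSymm ∧ (∀ i, ∑ j, M i j = 2) ∧ ∀ j, ∑ i, M i j = 2}

/-- The toric ideal: kernel of `t_M ↦ x^M z` (`z` is the variable `none`). -/
noncomputable def tor (k : Type) [Field k] (n : ℕ) : Ideal (MvPolynomial (Pt n) k) :=
  RingHom.ker (aeval (R := k) fun M : Pt n =>
    ((∏ i, ∏ j, X (Option.some (i, j)) ^ M.1 i j) * X none : MvPolynomial (Option (Fin n × Fin n)) k))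

/-- Number of entries equal to `2`. -/
def twos {n : ℕ} (M : Pt n) : ℕ := #{p : Fin n × Fin n | M.1 p.1 p.2 = 2}

/-- The matrix of a monomial. -/
def mat {n : ℕ} (u : Pt n →₀ ℕ) : Matrix (Fin n) (Fin n) ℕ := u.sum fun M e => e • M.1

section
variable {σ k : Type} [LinearOrder σ] [Field k]

/-- `u` is the exponent of the grevlex-leading monomial of `f`. -/
def Lead (f : MvPolynomial σ k) (u : σ →₀ ℕ) : Prop :=
  u ∈ f.support ∧ ∀ w ∈ f.support, w ≠ u → w.degree < u.degree ∨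
    (w.degree = u.degree ∧ ∃ x, u x < w x ∧ ∀ y < x, u y = w y)

/-- `G` is a reduced Groebner basis of `I` for grevlex. -/
def IsRGB (I : Ideal (MvPolynomial σ k)) (G : Finset (MvPolynomial σ k)) : Prop :=
  (∀ g ∈ G, g ∈ I ∧ ∃ u, Lead g u ∧ coeff u g = 1) ∧
  (∀ f ∈ I, ∀ w, Lead f w → ∃ g ∈ G, ∃ u, Lead g u ∧ u ≤ w) ∧
  ∀ g ∈ G, ∀ g' ∈ G, g ≠ g' → ∀ u, Lead g' u → ∀ w ∈ g.support, ¬ u ≤ w

variable {β : Type} [AddCommMonoid β] [DecidableEq β] {L : (σ →₀ ℕ) →+ β} {I : Ideal (MvPolynomial σ k)}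
  (hI : ∀ f, f ∈ I ↔ ∀ b, ∑ w ∈ f.support with L w = b, coeff w f = 0)
  (hd : ∀ u w, L u = L w → u.degree = w.degree)

def In (L : (σ →₀ ℕ) →+ β) (w : σ →₀ ℕ) : Prop := ∃ v, L v = L w ∧ toLex w < toLex v

theorem In.mono {u w : σ →₀ ℕ} (h : In L u) (e : u ≤ w) : In L w := by
  obtain ⟨a, rfl⟩ := exists_add_of_le e
  obtain ⟨v, h1, h2⟩ := h
  exact ⟨v + a, by simp [h1], add_lt_add_left h2 (toLex a)⟩

theorem In.of_ne {u w : σ →₀ ℕ} (h : L u = L w) (e : u ≠ w) : In L u ∨ In L w :=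
  (lt_or_gt_of_ne (a := toLex u) (b := toLex w) e).imp (⟨w, h.symm, ·⟩) (⟨u, h, ·⟩)

theorem supp {u v : σ →₀ ℕ} (e : u ≠ v) : (monomial u (1 : k) - monomial v 1).support = {u, v} := by
  ext w
  simp only [MvPolynomial.mem_support_iff, coeff_sub, coeff_monomial, mem_insert, mem_singleton]
  split_ifs <;> grind

include hI
theorem bin {u v : σ →₀ ℕ} (h : L u = L v) : monomial u (1 : k) - monomial v 1 ∈ I := by
  rcases eq_or_ne u v with rfl | e
  · simp
  refine (hI _).2 fun b => ?_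
  rw [supp e, sum_filter, sum_pair e]
  simp [coeff_monomial, e, e.symm, h]
  split_ifs <;> simp

theorem other {f : MvPolynomial σ k} (hf : f ∈ I) {w : σ →₀ ℕ} (hw : w ∈ f.support) :
    ∃ v ∈ f.support, v ≠ w ∧ L v = L w := by
  by_contra! h
  have := (hI f).1 hf (L w)
  rw [sum_eq_single_of_mem w (by simpa using hw) fun v a b => by
    rw [mem_filter] at a; exact absurd a.2 (h v a.1 b)] at this
  exact MvPolynomial.mem_support_iff.1 hw this

include hd
theorem Lead.in {f : MvPolynomial σ k} (hf : f ∈ I) {w : σ →₀ ℕ} (h : Lead f w) : In L w := by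
  obtain ⟨v, a, b, c⟩ := other hI hf h.1
  rcases h.2 v a b with e | ⟨-, x, e1, e2⟩
  · exact absurd (hd _ _ c) e.ne
  · exact ⟨v, c, x, e2, e1⟩

omit hI in
theorem lead_bin {u v w : σ →₀ ℕ} (h : L v = L u) (e : toLex u < toLex v) :
    Lead (monomial u (1 : k) - monomial v 1) w ↔ w = u := by
  have e' : u ≠ v := e.ne
  simp only [Lead, supp e', mem_insert, mem_singleton, forall_eq_or_imp, forall_eq]
  refine ⟨fun ⟨a, b, _⟩ => a.resolve_right ?_, fun a => by
    subst a; exact ⟨.inl rfl, by simp, fun _ => .inr ⟨hd _ _ h, e.imp fun x y => ⟨y.2, y.1⟩⟩⟩⟩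
  rintro rfl
  rcases b e' with c | ⟨-, x, e1, e2⟩
  · exact absurd (hd _ _ h) c.ne'
  · exact e.not_gt ⟨x, e2, e1⟩

theorem mem {G : Finset (MvPolynomial σ k)} (hG : IsRGB I G) {u : σ →₀ ℕ} (hu : Minimal (In L) u) :
    ∃ v, v ≠ u ∧ L v = L u ∧ monomial u 1 - monomial v 1 ∈ G := by
  obtain ⟨v, h1, h2⟩ := hu.1
  have ex : ∀ w, In L w → ∃ g ∈ G, ∃ u, Lead g u ∧ u ≤ w := fun w ⟨v, a, b⟩ =>
    hG.2.1 _ (bin hI a.symm) w ((lead_bin hd a b).2 rfl)
  obtain ⟨g, hg, u', a, b⟩ := ex u hu.1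
  obtain rfl := hu.eq_of_le (a.in hI hd (hG.1 g hg).1) b
  have uq : ∀ w, Lead g w → w = u' := fun w c => by
    by_contra e
    rcases a.2 w c.1 e with d | ⟨d, x, d1, d2⟩ <;> rcases c.2 u' a.1 (Ne.symm e) with d' | ⟨d', y, d3, d4⟩
    any_goals omega
    exact lt_asymm (a := toLex u') (b := toLex w) ⟨x, d2, d1⟩ ⟨y, d4, d3⟩
  have st : ∀ w ∈ g.support, w ≠ u' → ¬ In L w := fun w c d e => by
    obtain ⟨g', hg', w', p, q⟩ := ex w e
    refine hG.2.2 g hg g' hg' ?_ w' p w c q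
    rintro rfl
    obtain rfl := uq _ p
    obtain ⟨t, rfl⟩ := exists_add_of_le q
    have := a.2 _ c d
    rw [map_add] at this
    exact d (by rw [(degree_eq_zero_iff t).1 (by omega), add_zero])
  obtain ⟨v, c, d, e⟩ := other hI (hG.1 g hg).1 a.1
  refine ⟨v, d, e, ?_⟩
  obtain ⟨w, p, q⟩ := (hG.1 g hg).2
  obtain rfl := uq _ p
  suffices g - (monomial w 1 - monomial v 1) = 0 by rwa [← sub_eq_zero.1 this]
  have m := I.sub_mem (hG.1 g hg).1 (bin hI e.symm)
  have s : ∀ x ∈ (g - (monomial w 1 - monomial v 1)).support, x = v := fun x hx => by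
    by_contra h
    have x1 : x ≠ w := by rintro rfl; simp [q, coeff_monomial, d] at hx
    have x2 : x ∈ g.support := by simpa [coeff_monomial, Ne.symm h, x1.symm] using hx
    obtain ⟨y, y1, y2, y3⟩ := other hI (hG.1 g hg).1 x2
    by_cases y4 : y = w
    · exact (In.of_ne (y3.symm.trans (y4 ▸ e.symm)) h).elim (st x x2 x1) (st v c d)
    · exact (In.of_ne y3 y2).elim (st y y1 y4) (st x x2 x1)
  by_contra h
  obtain ⟨x, hx⟩ := support_nonempty.2 h
  obtain ⟨y, y1, y2, -⟩ := other hI m hx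
  exact y2 ((s y y1).trans (s x hx).symm)

theorem ex [Finite σ] : ∃ G, IsRGB I G := by
  classical
  choose m h1 h2 using fun u : σ →₀ ℕ => Set.exists_max_image {w | L w = L u} toLex
    ((finite_of_degree_eq u.degree).subset fun w => hd w u) ⟨u, rfl⟩
  have l : ∀ u, In L u → toLex u < toLex (m u) := fun u ⟨v, a, b⟩ => b.trans_le (h2 u v a)
  have f := (setOfPred_minimal_antichain (In L)).finite_of_partiallyWellOrderedOn
    (Set.isPWO_of_wellQuasiOrderedLE _)
  refine ⟨f.toFinset.image fun u => monomial u 1 - monomial (m u) 1, ?_, fun g a w b => ?_, ?_⟩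
  · simp only [mem_image, Set.Finite.mem_toFinset]
    rintro _ ⟨u, hu, rfl⟩
    have : m u ≠ u := (l u hu.1).ne'
    exact ⟨bin hI (h1 u).symm, u, (lead_bin hd (h1 u) (l u hu.1)).2 rfl, by simp [coeff_monomial, this]⟩
  · obtain ⟨u, c, hu⟩ := exists_minimal_le_of_wellFoundedLT _ _ (b.in hI hd a)
    exact ⟨_, mem_image_of_mem _ (f.mem_toFinset.2 hu), u, (lead_bin hd (h1 u) (l u hu.1)).2 rfl, c⟩
  · simp only [mem_image, Set.Finite.mem_toFinset]
    rintro _ ⟨u, hu, rfl⟩ _ ⟨u', hu', rfl⟩ e w a x b c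
    obtain rfl := (lead_bin hd (h1 u') (l u' hu'.1)).1 a
    rw [supp (u := u) (v := m u) (l u hu.1).ne, mem_insert, mem_singleton] at b
    rcases b with rfl | rfl
    · exact e (by rw [hu.eq_of_le hu'.1 c])
    · obtain ⟨v, p, q⟩ := hu'.1.mono c
      exact q.not_ge (h2 u v (p.trans (h1 u)))
end

noncomputable def ph {n : ℕ} (M : Pt n) : Option (Fin n × Fin n) →₀ ℕ :=
  (∑ i, ∑ j, single (Option.some (i, j)) (M.1 i j)) + single none 1

noncomputable def LL (n : ℕ) : (Pt n →₀ ℕ) →+ (Option (Fin n × Fin n) →₀ ℕ) :=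
  (linearCombination ℕ ph).toAddMonoidHom

theorem mat_add {n : ℕ} (u v : Pt n →₀ ℕ) : mat (u + v) = mat u + mat v :=
  sum_add_index' (by simp) fun _ _ _ => add_smul _ _ _

theorem mat_single {n : ℕ} (M : Pt n) (e : ℕ) : mat (single M e) = e • M.1 := by simp [mat]

theorem LL_eq {n : ℕ} {u v : Pt n →₀ ℕ} : LL n u = LL n v ↔ u.degree = v.degree ∧ mat u = mat v := by
  have : ∀ u, LL n u none = u.degree ∧ ∀ i j, LL n u (Option.some (i, j)) = mat u i j := fun u => by
    induction u using Finsupp.induction_linear with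
    | zero => simp [mat]
    | add u v a b => simp [a, b, mat_add]
    | single M e => simp [LL, ph, mat_single, Finsupp.finset_sum_apply, single_apply, ite_and]
  refine ⟨fun h => ⟨by rw [← (this u).1, h, (this v).1], Matrix.ext fun i j => by
    rw [← (this u).2, h, (this v).2]⟩, fun h => Finsupp.ext ?_⟩
  rintro (_ | ⟨i, j⟩) <;> simp [this, h]

theorem tor_iff (k : Type) [Field k] (n : ℕ) (f : MvPolynomial (Pt n) k) :
    f ∈ tor k n ↔ ∀ b, ∑ w ∈ f.support with LL n w = b, coeff w f = 0 := by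
  rw [tor, RingHom.mem_ker]
  generalize hp : aeval (R := k) (fun M : Pt n => ((∏ i, ∏ j, X (Option.some (i, j)) ^ M.1 i j) *
    X none : MvPolynomial (Option (Fin n × Fin n)) k)) = p
  have : ∀ u, p (monomial u 1) = monomial (LL n u) 1 := fun u => by
    induction u using Finsupp.induction_linear with
    | zero => simp
    | add u v a b => rw [map_add, ← one_mul (1 : k), ← monomial_mul, ← monomial_mul, map_mul, a, b]
    | single M e =>
      rw [← X_pow_eq_monomial, map_pow, ← hp, aeval_X]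
      simp only [X_pow_eq_monomial, ← monomial_sum_one]
      simp [X, monomial_pow, LL, ph]
  rw [MvPolynomial.ext_iff]
  refine forall_congr' fun b => ?_
  have e : ∀ u c, p (monomial u c) = monomial (LL n u) c := fun u c => by
    rw [← mul_one c, ← smul_eq_mul, map_smul, map_smul, this, map_smul]
  conv_lhs => rw [f.as_sum, map_sum, coeff_sum]
  simp [e, coeff_monomial, sum_filter]

instance (n : ℕ) : Finite (Pt n) := ((Set.finite_Iic (fun _ _ => 2 : Fin n → Fin n → ℕ)).subset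
  fun _ h i j => (single_le_sum (fun _ _ => Nat.zero_le _) (mem_univ j)).trans (h.2.1 i).le).to_subtype

theorem ord (n : ℕ) : ∃ o : LinearOrder (Pt n), ∀ M N, twos N < twos M → o.lt M N := by
  obtain ⟨m, ⟨e⟩⟩ := Finite.exists_equiv_fin (Pt n)
  exact ⟨.lift' (fun M => toLex (OrderDual.toDual (twos M), e M)) fun a b h =>
    e.injective (congrArg (fun x => (ofLex x).2) h), fun M N h => Prod.Lex.left _ _ h⟩

abbrev ok (b c e : ℕ) : Prop := b + c ≤ 2 ∧ b + e ≤ 2 ∧ c + e ≤ 2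

def F0 (b c e : ℕ) : Matrix (Fin 4) (Fin 4) ℕ :=
  !![2 - b - c, b, c, 0; b, 2 - b - e, e, 0; c, e, 2 - c - e, 0; 0, 0, 0, 2]

def F (b c e : ℕ) (h : ok b c e) : Pt 4 := ⟨F0 b c e, by
  refine ⟨Matrix.IsSymm.ext fun i j => ?_, fun i => ?_, fun i => ?_⟩
  · fin_cases i <;> fin_cases j <;> rfl
  all_goals fin_cases i <;> simp [F0, Fin.sum_univ_four] <;> omega⟩

theorem isF (M : Pt 4) (h : M.1 3 3 = 2) : ∃ b c e h, M = F b c e h := by
  obtain ⟨M, s, r, r'⟩ := M
  change M 3 3 = 2 at h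
  have s := s.apply
  have := r 0; have := r 1; have := r 2; have := r 3
  have := s 0 1; have := s 0 2; have := s 0 3; have := s 1 2; have := s 1 3; have := s 2 3
  simp only [Fin.sum_univ_four] at *
  refine ⟨M 0 1, M 0 2, M 1 2, by omega, Subtype.ext (show M = F0 _ _ _ from Matrix.ext ?_)⟩
  simp [Fin.forall_fin_succ, F0]
  omega

theorem le2 {n : ℕ} (M : Pt n) (i j : Fin n) : M.1 i j ≤ 2 :=
  (single_le_sum (fun _ _ => Nat.zero_le _) (mem_univ j)).trans (M.2.2.1 i).le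

def tw (b c e : ℕ) : ℕ := #{p : Fin 4 × Fin 4 | F0 b c e p.1 p.2 = 2}

theorem tw_lt : ∀ b < 3, ∀ c < 3, ∀ e < 3, ok b c e →
    (if b % 2 + c % 2 + e % 2 = 0 then tw b c e = 4 else tw b c e < 4) := by decide +kernel

variable [LinearOrder (Pt 4)] (ho : ∀ M N : Pt 4, twos N < twos M → M < N)

include ho in
theorem std {b c e b' c' e' : ℕ} (h : ok b c e) (h' : ok b' c' e')
    (H : ∀ x y z x' y' z', ok x y z → ok x' y' z' → x + x' = b + b' → y + y' = c + c' → z + z' = e + e' →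
      (x = b ∧ y = c ∧ z = e) ∨ (x = b' ∧ y = c' ∧ z = e') ∨ (b % 2 + c % 2 + e % 2 = 0 ∧
        x % 2 + y % 2 + z % 2 ≠ 0 ∧ x' % 2 + y' % 2 + z' % 2 ≠ 0)) :
    ¬ In (LL 4) (single (F b c e h) 1 + single (F b' c' e' h') 1) := by
  rintro ⟨v, h1, h2⟩
  obtain ⟨d, m⟩ := LL_eq.1 h1
  obtain ⟨M, N, rfl⟩ : ∃ M N, v = single M 1 + single N 1 := by
    obtain ⟨g, a, g1⟩ := exists_le_degree_eq v 1 (by simp [d])
    obtain ⟨t, rfl⟩ := exists_add_of_le a
    obtain ⟨M, rfl⟩ : g ∈ Set.range (single · 1) := range_single_one ▸ g1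
    obtain ⟨N, rfl⟩ : t ∈ Set.range (single · 1) := range_single_one ▸ (by simp at d ⊢; omega)
    exact ⟨M, N, rfl⟩
  simp only [mat_add, mat_single, one_smul] at m
  have m := fun i j => congrFun (congrFun m i) j
  have := le2 M 3 3; have := le2 N 3 3
  have m3 : M.1 3 3 + N.1 3 3 = 2 + 2 := m 3 3
  obtain ⟨x, y, z, p, rfl⟩ := isF M (by omega)
  obtain ⟨x', y', z', p', rfl⟩ := isF N (by omega)
  have m1 : x + x' = b + b' := m 0 1
  have m2 : y + y' = c + c' := m 0 2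
  have m3 : z + z' = e + e' := m 1 2
  rcases H x y z x' y' z' p p' m1 m2 m3 with ⟨rfl, rfl, rfl⟩ | ⟨rfl, rfl, rfl⟩ | ⟨a, a1, a2⟩
  · obtain ⟨rfl, rfl, rfl⟩ : x' = b' ∧ y' = c' ∧ z' = e' := by omega
    exact h2.false
  · obtain ⟨rfl, rfl, rfl⟩ : x' = b ∧ y' = c ∧ z' = e := by omega
    exact h2.ne (add_comm _ _)
  have t := tw_lt b (by omega) c (by omega) e (by omega) h
  have t1 := tw_lt x (by omega) y (by omega) z (by omega) p
  have t2 := tw_lt x' (by omega) y' (by omega) z' (by omega) p'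
  rw [if_pos a] at t; rw [if_neg a1] at t1; rw [if_neg a2] at t2
  have l1 := ho (F b c e h) (F x y z p) (t1.trans_eq t.symm)
  have l2 := ho (F b c e h) (F x' y' z' p') (t2.trans_eq t.symm)
  obtain ⟨i, i1, i2⟩ := Finsupp.Lex.lt_iff.1 h2
  simp only [ofLex_toLex, Finsupp.add_apply, single_apply] at i1 i2
  have := i1 (F b c e h)
  generalize F b c e h = P, F b' c' e' h' = Q, F x y z p = M, F x' y' z' p' = N at *
  clear * - i2 this l1 l2
  grind

theorem mini {a b c : Pt 4} (h : In (LL 4) (single a 1 + single b 1 + single c 1))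
    (h1 : ¬ In (LL 4) (single a 1 + single b 1)) (h2 : ¬ In (LL 4) (single c 1 + single a 1))
    (h3 : ¬ In (LL 4) (single c 1 + single b 1)) :
    Minimal (In (LL 4)) (single a 1 + single b 1 + single c 1) := by
  refine ⟨h, fun w p q => ?_⟩
  by_contra e
  obtain ⟨x, hx⟩ := not_forall.1 (mt Finsupp.le_def.2 e)
  rw [Finsupp.le_def] at q
  have : x = a ∨ x = b ∨ x = c := by simp only [Finsupp.add_apply, single_apply] at hx; grind
  rcases this with rfl | rfl | rfl <;> [refine h3 (p.mono fun y => ?_); refine h2 (p.mono fun y => ?_);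
    refine h1 (p.mono fun y => ?_)] <;> have := q y <;>
      simp only [Finsupp.add_apply, single_apply] at * <;> grind

include ho in
theorem main (k : Type) [Field k] {G : Finset (MvPolynomial (Pt 4) k)} (hG : IsRGB (tor k 4) G) :
    ∃ u v, u ≠ v ∧ monomial u 1 - monomial v 1 ∈ G ∧ u.degree = 3 ∧ v.degree = 3 ∧ mat v = mat u ∧
      mat u = !![2, 2, 2, 0; 2, 2, 2, 0; 2, 2, 2, 0; 0, 0, 0, 6] := by
  have : ∃ u, Minimal (In (LL 4)) u ∧ u.degree = 3 ∧
      mat u = !![2, 2, 2, 0; 2, 2, 2, 0; 2, 2, 2, 0; 0, 0, 0, 6] := by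
    have a : mat (single (F 1 1 1 (by decide)) 1 + single (F 1 1 1 (by decide)) 1 + single (F 0 0 0 (by decide)) 1) =
      !![2, 2, 2, 0; 2, 2, 2, 0; 2, 2, 2, 0; 0, 0, 0, 6] := by
        simp only [mat_add, mat_single]; simp [F, F0]
    have b : mat (single (F 2 0 0 (by decide)) 1 + single (F 0 2 0 (by decide)) 1 + single (F 0 0 2 (by decide)) 1) =
      !![2, 2, 2, 0; 2, 2, 2, 0; 2, 2, 2, 0; 0, 0, 0, 6] := by
        simp only [mat_add, mat_single]; simp [F, F0]
    have n : ∀ b c e h, b ≠ 1 → F b c e h ≠ F 1 1 1 (by decide) := fun b c e h p q => p (congrArg (·.1 0 1) q)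
    rcases In.of_ne (LL_eq.2 ⟨by simp, a.trans b.symm⟩) fun h => by
      simpa [n] using DFunLike.congr_fun h (F 1 1 1 (by decide)) with h | h
    · exact ⟨_, mini h (std ho _ _ (by omega)) (std ho _ _ (by omega)) (std ho _ _ (by omega)), by simp, a⟩
    · exact ⟨_, mini h (std ho _ _ (by omega)) (std ho _ _ (by omega)) (std ho _ _ (by omega)), by simp, b⟩
  obtain ⟨u, a, b, c⟩ := this
  obtain ⟨v, d, e, f⟩ := mem (tor_iff k 4) (fun _ _ h => (LL_eq.1 h).1) hG a
  exact ⟨u, v, d.symm, f, b, (LL_eq.1 e).1.trans b, (LL_eq.1 e).2, c⟩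

end Pool.Agent.H.MP_ae75a9_co
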